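import Pool.Agent.H86.Sav.Count

set_option autoImplicit false

namespace Pool.Agent.Results.MP_aa036a_co.StrongAvoid

open Pool.Agent.H86.Sav

/-- The permutation `π` of `Fin n` (the letters `0, …, n - 1`) contains the pattern whose
one-line word is `τ`: there are positions `f 0 < f 1 < ⋯ < f (m - 1)` such that
`π (f j) < π (f k)` holds exactly when `τ j < τ k`. -/
def Contains {m n : ℕ} (τ : Fin m → ℕ) (π : Equiv.Perm (Fin n)) : Prop :=
  ∃ f : Fin m → Fin n, StrictMono f ∧ ∀ j k : Fin m, π (f j) < π (f k) ↔ τ j < τ k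

/-- Strong avoidance: both `π` and `π * π` (the composition of `π` with itself) avoid `τ`. -/
def StronglyAvoids {m n : ℕ} (τ : Fin m → ℕ) (π : Equiv.Perm (Fin n)) : Prop :=
  ¬ Contains τ π ∧ ¬ Contains τ (π * π)

/-- extension of a permutation of `Fin n` to the natural numbers -/
def ext (n : ℕ) (π : Equiv.Perm (Fin n)) : Equiv.Perm ℕ :=
  π.extendDomain Fin.equivSubtype

theorem ext_lt {n : ℕ} (π : Equiv.Perm (Fin n)) (i : Fin n) : ext n π (i : ℕ) = (π i : ℕ) :=
  Equiv.Perm.extendDomain_apply_image π Fin.equivSubtype i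

theorem ext_ge {n : ℕ} (π : Equiv.Perm (Fin n)) (i : ℕ) (hi : n ≤ i) : ext n π i = i :=
  Equiv.Perm.extendDomain_apply_not_subtype π Fin.equivSubtype (by omega)

theorem ext_sq_lt {n : ℕ} (π : Equiv.Perm (Fin n)) (i : Fin n) :
    ext n π (ext n π (i : ℕ)) = ((π * π) i : ℕ) := by
  rw [ext_lt, ext_lt]
  rfl

theorem ext_injective (n : ℕ) : Function.Injective (ext n) := by
  intro π ρ h
  ext i
  have h1 := congrArg (fun e : Equiv.Perm ℕ => e (i : ℕ)) h
  simp only [ext_lt] at h1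
  exact h1

theorem ext_surj {n : ℕ} (e : Equiv.Perm ℕ) (h : ∀ i, n ≤ i → e i = i) : ∃ π, ext n π = e := by
  have hlt := perm_lt h
  have hlg := perm_lt (perm_symm h)
  refine ⟨⟨fun i => ⟨e i, hlt i i.2⟩, fun i => ⟨e.symm i, hlg i i.2⟩, ?_, ?_⟩, ?_⟩
  · intro i
    apply Fin.ext
    simp
  · intro i
    apply Fin.ext
    simp
  · apply Equiv.ext
    intro i
    rcases Nat.lt_or_ge i n with hi | hi
    · exact ext_lt _ ⟨i, hi⟩
    · rw [ext_ge _ _ hi, h i hi]

theorem avoid3 {n : ℕ} (π : Equiv.Perm (Fin n)) (F : ℕ → ℕ) (hF : ∀ i : Fin n, F i = (π i : ℕ)) :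
    ¬ Contains ![3, 2, 1] π ↔ A3 F n := by
  constructor
  · intro h i j k hij hjk hk h1 h2
    apply h
    refine ⟨![⟨i, by omega⟩, ⟨j, by omega⟩, ⟨k, hk⟩], ?_, ?_⟩
    · rw [Fin.strictMono_iff_lt_succ]
      intro x
      fin_cases x
      · simpa using hij
      · simpa using hjk
    · have e1 := hF ⟨i, by omega⟩
      have e2 := hF ⟨j, by omega⟩
      have e3 := hF ⟨k, hk⟩
      simp only at e1 e2 e3
      rw [e3, e2] at h1
      rw [e2, e1] at h2
      intro x y
      fin_cases x <;> fin_cases y <;> simp [-Fin.val_fin_lt, Fin.lt_def] <;> omega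
  · intro h hc
    obtain ⟨f, hf, hp⟩ := hc
    have h1 := hf (show (0 : Fin 3) < 1 by decide)
    have h2 := hf (show (1 : Fin 3) < 2 by decide)
    refine h (f 0) (f 1) (f 2) h1 h2 (f 2).2 ?_ ?_
    · rw [hF, hF]
      exact (hp 2 1).2 (by simp)
    · rw [hF, hF]
      exact (hp 1 0).2 (by simp)

theorem avoid4 {n : ℕ} (π : Equiv.Perm (Fin n)) (F : ℕ → ℕ) (hF : ∀ i : Fin n, F i = (π i : ℕ)) :
    ¬ Contains ![1, 3, 4, 2] π ↔ A4 F n := by
  constructor
  · intro h i j k l hij hjk hkl hl h1 h2 h3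
    apply h
    refine ⟨![⟨i, by omega⟩, ⟨j, by omega⟩, ⟨k, by omega⟩, ⟨l, hl⟩], ?_, ?_⟩
    · rw [Fin.strictMono_iff_lt_succ]
      intro x
      fin_cases x
      · simpa using hij
      · simpa using hjk
      · simpa using hkl
    · have e1 := hF ⟨i, by omega⟩
      have e2 := hF ⟨j, by omega⟩
      have e3 := hF ⟨k, by omega⟩
      have e4 := hF ⟨l, hl⟩
      simp only at e1 e2 e3 e4
      rw [e1, e4] at h1
      rw [e4, e2] at h2
      rw [e2, e3] at h3
      intro x y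
      fin_cases x <;> fin_cases y <;> simp [-Fin.val_fin_lt, Fin.lt_def] <;> omega
  · intro h hc
    obtain ⟨f, hf, hp⟩ := hc
    have h1 := hf (show (0 : Fin 4) < 1 by decide)
    have h2 := hf (show (1 : Fin 4) < 2 by decide)
    have h3 := hf (show (2 : Fin 4) < 3 by decide)
    refine h (f 0) (f 1) (f 2) (f 3) h1 h2 h3 (f 3).2 ?_ ?_ ?_
    · rw [hF, hF]
      exact (hp 0 3).2 (by simp)
    · rw [hF, hF]
      exact (hp 3 1).2 (by simp)
    · rw [hF, hF]
      exact (hp 1 2).2 (by simp)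

theorem good_iff {n : ℕ} (π : Equiv.Perm (Fin n)) :
    (StronglyAvoids ![3, 2, 1] π ∧ StronglyAvoids ![1, 3, 4, 2] π) ↔ Good (ext n π) n := by
  unfold StronglyAvoids Good
  rw [avoid3 π (fun i => ext n π i) (ext_lt π), avoid4 π (fun i => ext n π i) (ext_lt π),
    avoid3 (π * π) (fun i => ext n π (ext n π i)) (ext_sq_lt π),
    avoid4 (π * π) (fun i => ext n π (ext n π i)) (ext_sq_lt π)]
  constructor
  · rintro ⟨⟨h1, h2⟩, h3, h4⟩
    exact ⟨ext_ge π, h1, h3, h2, h4⟩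
  · rintro ⟨_, h1, h3, h2, h4⟩
    exact ⟨⟨h1, h2⟩, h3, h4⟩

theorem card_eq (n : ℕ) :
    Nat.card {π : Equiv.Perm (Fin n) //
      StronglyAvoids ![3, 2, 1] π ∧ StronglyAvoids ![1, 3, 4, 2] π} = (S n).card := by
  have h : Nat.card {π : Equiv.Perm (Fin n) //
      StronglyAvoids ![3, 2, 1] π ∧ StronglyAvoids ![1, 3, 4, 2] π} = Nat.card {e // e ∈ S n} := by
    refine Nat.card_congr (Equiv.ofBijective
      (fun π => ⟨ext n π.1, (mem_S n _).2 ((good_iff _).1 π.2)⟩) ⟨?_, ?_⟩)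
    · intro π ρ h
      apply Subtype.ext
      exact ext_injective n (congrArg Subtype.val h)
    · rintro ⟨e, he⟩
      have hg := (mem_S n e).1 he
      obtain ⟨π, hπ⟩ := ext_surj e hg.1
      refine ⟨⟨π, (good_iff π).2 (by rw [hπ]; exact hg)⟩, ?_⟩
      exact Subtype.ext hπ
  rw [h, Nat.card_eq_fintype_card, Fintype.card_coe]

/-- For every positive integer `n`, the number of permutations of `n` letters that strongly
avoid `321` and `1342` equals `2 F_{n+2} - n - 2`. -/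
theorem result (n : ℕ) (hn : 1 ≤ n) :
    (Nat.card {π : Equiv.Perm (Fin n) //
      StronglyAvoids ![3, 2, 1] π ∧ StronglyAvoids ![1, 3, 4, 2] π} : ℤ)
        = 2 * (Nat.fib (n + 2) : ℤ) - n - 2 := by
  obtain ⟨m, rfl⟩ : ∃ m, n = m + 1 := ⟨n - 1, by omega⟩
  rw [card_eq]
  have := card_S m
  rw [show m + 1 + 2 = m + 3 by ring]
  push_cast
  omega

end Pool.Agent.Results.MP_aa036a_co.StrongAvoid
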